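import Pool.Agent.H482R3.EA.Stm

set_option autoImplicit false

/-!
# REX: projections of recursively enumerable sets
-/

namespace Pool.Agent.H334R2.EA.REX


open Nat.Partrec (Code)
open Nat.Partrec.Code Encodable

theorem rex_aux {α β : Type} [Primcodable α] [Primcodable β] (R : α → β → Prop)
    (h : REPred fun p : α × β => R p.1 p.2) : REPred fun a => ∃ b, R a b := by
  have h0 : Partrec fun p : α × β => Part.assert (R p.1 p.2) fun _ => Part.some () := h
  obtain ⟨c, hc⟩ := exists_code.1 h0
  have hcd : ∀ (a : α) (b : β), (∃ k, (evaln k c (encode (a, b))).isSome = true) ↔ R a b := by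
    intro a b
    have h1 : eval c (encode (a, b)) =
        (Part.assert (R a b) fun _ => Part.some ()).map encode := by
      rw [hc]
      simp [encodek]
    constructor
    · rintro ⟨k, hk⟩
      obtain ⟨x, hx⟩ := Option.isSome_iff_exists.1 hk
      have h2 : x ∈ eval c (encode (a, b)) := evaln_sound (Option.mem_def.2 hx)
      rw [h1] at h2
      simp only [Part.mem_map_iff, Part.mem_assert_iff] at h2
      obtain ⟨_, ⟨hR, _⟩, _⟩ := h2
      exact hR
    · intro hR
      have h2 : (encode () : ℕ) ∈ eval c (encode (a, b)) := by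
        rw [h1, Part.mem_map_iff]
        exact ⟨(), Part.mem_assert hR (Part.mem_some ()), rfl⟩
      obtain ⟨k, hk⟩ := evaln_complete.1 h2
      exact ⟨k, Option.isSome_iff_exists.2 ⟨_, hk⟩⟩
  let g : α → ℕ → Option ℕ := fun a n => (decode (α := β × ℕ) n).bind fun q =>
    evaln q.2 c (encode (a, q.1))
  have hg : Computable₂ g := by
    apply Primrec.to_comp
    have h1 : Primrec fun x : (α × ℕ) × (β × ℕ) => evaln x.2.2 c (encode (x.1.1, x.2.1)) := by
      have h2 := primrec_evaln
      refine h2.comp ((Primrec.pair (Primrec.pair (Primrec.snd.comp Primrec.snd)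
        (Primrec.const c)) (Primrec.encode.comp (Primrec.pair (Primrec.fst.comp Primrec.fst)
          (Primrec.fst.comp Primrec.snd)))) : Primrec fun x : (α × ℕ) × (β × ℕ) =>
            ((x.2.2, c), encode (x.1.1, x.2.1)))
    exact Primrec.option_bind (Primrec.decode.comp Primrec.snd) h1
  have h3 : Partrec fun a => Nat.rfindOpt (g a) := Partrec.rfindOpt hg
  have h4 : REPred fun a => (Nat.rfindOpt (g a)).Dom := h3.dom_re
  refine h4.of_eq fun a => ?_
  rw [Nat.rfindOpt_dom]
  constructor
  · rintro ⟨n, x, hx⟩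
    obtain ⟨q, hq, hq'⟩ := Option.mem_bind_iff.1 hx
    exact ⟨q.1, (hcd a q.1).1 ⟨q.2, Option.isSome_iff_exists.2 ⟨x, hq'⟩⟩⟩
  · rintro ⟨b, hb⟩
    obtain ⟨k, hk⟩ := (hcd a b).2 hb
    obtain ⟨x, hx⟩ := Option.isSome_iff_exists.1 hk
    refine ⟨encode (b, k), x, ?_⟩
    show x ∈ (decode (α := β × ℕ) (encode (b, k))).bind fun q => evaln q.2 c (encode (a, q.1))
    rw [encodek]
    exact hx

end Pool.Agent.H334R2.EA.REX

namespace Pool.Agent.H334R2.EA

theorem t_REX : Pool.Agent.H482R3.EA.S_REX := by
  intro α β _ _ p hp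
  exact REX.rex_aux (fun x y => p (x, y)) hp

end Pool.Agent.H334R2.EA
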